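import Pool.Agent.Run7.h940.PACH.Iface
import Pool.Agent.Helper82.BorsukUlam

/-! HALVE: ham sandwich through the origin for finite sets, from Borsuk-Ulam. -/

set_option autoImplicit false

namespace Run7.h482.PACH

open Finset Filter Topology Module

/-- Truncation to `[-1, 1]`. -/
noncomputable def clamp (t : ℝ) : ℝ := max (-1) (min 1 t)

theorem clamp_neg (t : ℝ) : clamp (-t) = - clamp t := by
  unfold clamp
  rcases le_total t 1 with h1 | h1 <;> rcases le_total (-1) t with h2 | h2
  · rw [min_eq_right (by linarith), max_eq_right (by linarith), min_eq_right h1, max_eq_right h2]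
  · rw [min_eq_left (by linarith), max_eq_right (by linarith), min_eq_right h1, max_eq_left h2]
    norm_num
  · rw [min_eq_right (by linarith), max_eq_left (by linarith), min_eq_left h1, max_eq_right (by linarith)]
  · linarith

theorem clamp_cont : Continuous clamp := by
  unfold clamp; fun_prop

theorem clamp_ge (t : ℝ) : -1 ≤ clamp t := le_max_left _ _

theorem clamp_le (t : ℝ) : clamp t ≤ 1 := max_le (by norm_num) (min_le_left _ _)

theorem clamp_one {t : ℝ} (h : 1 ≤ t) : clamp t = 1 := by
  unfold clamp; rw [min_eq_left h]; norm_num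

theorem K_compact (m : ℕ) : IsCompact (Pool.Agent.Helper82.BorsukUlam.K m) := by
  refine Metric.isCompact_of_isClosed_isBounded ?_ ?_
  · unfold Pool.Agent.Helper82.BorsukUlam.K
    exact isClosed_eq (by fun_prop) continuous_const
  · refine (Metric.isBounded_closedBall (x := (0 : Fin (m + 1) → ℝ)) (r := 1)).subset ?_
    intro x hx
    rw [mem_closedBall_zero_iff, pi_norm_le_iff_of_nonneg (by norm_num)]
    intro i
    have h : ∑ i, |x i| = 1 := hx
    rw [Real.norm_eq_abs, ← h]
    exact Finset.single_le_sum (f := fun i => |x i|) (fun i _ => abs_nonneg _) (Finset.mem_univ i)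

theorem halve : Run7.h940.PACH.S_HALVE := by
  intro V _ _ _ ι _ hι F
  classical
  obtain ⟨r, hr⟩ : ∃ r, finrank ℝ V = r + 1 := ⟨finrank ℝ V - 1, by omega⟩
  have hd : finrank ℝ (Module.Dual ℝ V) = r + 1 := by rw [Subspace.dual_finrank_eq, hr]
  let b : Basis (Fin (r + 1)) ℝ (Module.Dual ℝ V) := finBasisOfFinrankEq ℝ _ hd
  have hcard : Fintype.card ι ≤ Fintype.card (Fin r) := by
    rw [Fintype.card_fin]; omega
  obtain ⟨e⟩ := Function.Embedding.nonempty_of_card_le hcard
  let P : (Fin (r + 1) → ℝ) → (V →ₗ[ℝ] ℝ) := fun v => ∑ k, v k • b k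
  have P_apply : ∀ v x, P v x = ∑ k, v k * b k x := by
    intro v x
    simp only [P, LinearMap.sum_apply, LinearMap.smul_apply, smul_eq_mul]
  have P_cont : ∀ x : V, Continuous (fun v : Fin (r + 1) → ℝ => P v x) := by
    intro x
    simp only [P_apply]
    fun_prop
  have P_neg : ∀ v x, P (-v) x = - P v x := by
    intro v x
    rw [P_apply, P_apply, ← Finset.sum_neg_distrib]
    refine Finset.sum_congr rfl fun k _ => ?_
    rw [Pi.neg_apply]; ring
  -- the sets indexed by `Fin r`
  let A : Fin r → Finset V := fun j => if h : ∃ i, e i = j then F h.choose else ∅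
  have hA : ∀ i, A (e i) = F i := by
    intro i
    have h : ∃ i', e i' = e i := ⟨i, rfl⟩
    have h2 : A (e i) = F h.choose := dif_pos h
    rw [h2, e.injective h.choose_spec]
  -- the zeros of the approximations
  have hz : ∀ N : ℕ, ∃ v ∈ Pool.Agent.Helper82.BorsukUlam.K r,
      ∀ j, ∑ x ∈ A j, clamp (N * P v x) = 0 := by
    intro N
    obtain ⟨v, hv, h0⟩ := Pool.Agent.Helper82.BorsukUlam.borsuk_ulam r
      (fun v j => ∑ x ∈ A j, clamp (N * P v x))
      (by
        refine continuous_pi fun j => ?_
        refine continuous_finsetSum _ fun x _ => ?_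
        exact clamp_cont.comp (continuous_const.mul (P_cont x)))
      (by
        intro v
        funext j
        simp only [Pi.neg_apply]
        rw [← Finset.sum_neg_distrib]
        refine Finset.sum_congr rfl fun x _ => ?_
        rw [← clamp_neg, P_neg]
        congr 1
        ring)
    exact ⟨v, hv, fun j => congrFun h0 j⟩
  choose v hv h0 using hz
  obtain ⟨w, hw, φ, hφ, hlim⟩ := (K_compact r).tendsto_subseq hv
  have hlimx : ∀ x : V, Tendsto (fun n => P (v (φ n)) x) atTop (𝓝 (P w x)) :=
    fun x => ((P_cont x).tendsto w).comp hlim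
  have hN : Tendsto (fun n => ((φ n : ℕ) : ℝ)) atTop atTop :=
    tendsto_natCast_atTop_atTop.comp hφ.tendsto_atTop
  have hpos : ∀ x : V, 0 < P w x →
      ∀ᶠ n in atTop, clamp (φ n * P (v (φ n)) x) = 1 := by
    intro x hx
    have := (hN.atTop_mul_pos hx (hlimx x)).eventually_ge_atTop 1
    exact this.mono fun n hn => clamp_one hn
  have hneg : ∀ x : V, P w x < 0 →
      ∀ᶠ n in atTop, clamp (φ n * P (v (φ n)) x) = -1 := by
    intro x hx
    have := (hN.atTop_mul_pos (by linarith : 0 < - P w x) (hlimx x).neg).eventually_ge_atTop 1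
    refine this.mono fun n hn => ?_
    have h1 : clamp (-(φ n * P (v (φ n)) x)) = 1 := clamp_one (by linarith)
    rw [clamp_neg] at h1
    linarith
  refine ⟨P w, ?_, ?_⟩
  · intro h
    have hli := b.linearIndependent
    rw [Fintype.linearIndependent_iff] at hli
    have hw0 : ∀ k, w k = 0 := hli w h
    have h1 : ∑ i, |w i| = 1 := hw
    simp [hw0] at h1
  · intro i
    have hev : ∀ᶠ n in atTop, ∀ x ∈ F i, (0 < P w x →
        clamp (φ n * P (v (φ n)) x) = 1) ∧ (P w x < 0 →
        clamp (φ n * P (v (φ n)) x) = -1) := by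
      rw [Filter.eventually_all_finset]
      intro x _
      by_cases h1 : 0 < P w x
      · exact (hpos x h1).mono fun n hn => ⟨fun _ => hn, fun h => by linarith⟩
      · by_cases h2 : P w x < 0
        · exact (hneg x h2).mono fun n hn => ⟨fun h => by linarith, fun _ => hn⟩
        · exact Eventually.of_forall fun n => ⟨fun h => absurd h h1, fun h => absurd h h2⟩
    obtain ⟨n, hn⟩ := hev.exists
    have hsum := h0 (φ n) (e i)
    rw [hA] at hsum
    constructor
    · have key : ∑ x ∈ F i, (if 0 < P w x then (2 : ℝ) else 0) ≤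
          ∑ x ∈ F i, (clamp (φ n * P (v (φ n)) x) + 1) := by
        refine Finset.sum_le_sum fun x hx => ?_
        split_ifs with h
        · rw [(hn x hx).1 h]; norm_num
        · have := clamp_ge (φ n * P (v (φ n)) x); linarith
      rw [Finset.sum_add_distrib, hsum, ← Finset.sum_filter] at key
      simp only [Finset.sum_const, nsmul_eq_mul, zero_add, mul_one] at key
      have h3 : ((F i).filter (fun x => 0 < P w x)).card * 2 ≤ (F i).card := by
        exact_mod_cast key
      have h4 : ({u ∈ (F i : Set V) | 0 < P w u}).ncard =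
          ((F i).filter (fun x => 0 < P w x)).card := by
        rw [← Set.ncard_coe_finset]
        congr 1
        ext u; simp
      rw [h4]; omega
    · have key : ∑ x ∈ F i, (if P w x < 0 then (2 : ℝ) else 0) ≤
          ∑ x ∈ F i, (1 - clamp (φ n * P (v (φ n)) x)) := by
        refine Finset.sum_le_sum fun x hx => ?_
        split_ifs with h
        · rw [(hn x hx).2 h]; norm_num
        · have := clamp_le (φ n * P (v (φ n)) x); linarith
      rw [Finset.sum_sub_distrib, hsum, ← Finset.sum_filter] at key
      simp only [Finset.sum_const, nsmul_eq_mul, sub_zero, mul_one] at key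
      have h3 : ((F i).filter (fun x => P w x < 0)).card * 2 ≤ (F i).card := by
        exact_mod_cast key
      have h4 : ({u ∈ (F i : Set V) | P w u < 0}).ncard =
          ((F i).filter (fun x => P w x < 0)).card := by
        rw [← Set.ncard_coe_finset]
        congr 1
        ext u; simp
      rw [h4]; omega

end Run7.h482.PACH
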